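import Pool.Agent.Helper58.P3.ExtH

/-!
# Odd functions on a group of order 9 killed by 3
-/

namespace Pool.Agent.Helper47.P3

open Pool.Agent.Helper58.IQ Pool.Agent.Helper58.P3

theorem tab {F : ZMod 3 × ZMod 3 → ZMod 3} (hF : ∀ v, F (-v) = -F v) :
    F (0, 0) = 0 ∧ F (2, 0) = -F (1, 0) ∧ F (0, 2) = -F (0, 1) ∧ F (2, 2) = -F (1, 1) ∧
      F (2, 1) = -F (1, 2) := by
  refine ⟨?_, ?_, ?_, ?_, ?_⟩
  · have h := hF (0, 0)
    have e : (-((0, 0) : ZMod 3 × ZMod 3)) = (0, 0) := by decide
    rw [e] at h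
    exact (show ∀ z : ZMod 3, z = -z → z = 0 by decide) _ h
  · exact hF (1, 0)
  · exact hF (0, 1)
  · exact hF (1, 1)
  · exact hF (1, 2)

theorem sum_tab {F : ZMod 3 × ZMod 3 → ZMod 3} (hF : ∀ v, F (-v) = -F v) :
    ∑ v, F v • v = (-(F (1, 0) + F (1, 1) + F (1, 2)), -(F (0, 1) + F (1, 1) - F (1, 2))) := by
  obtain ⟨h0, h1, h2, h3, h4⟩ := tab hF
  rw [Fintype.sum_prod_type]
  have e : ∀ g : ZMod 3 → ZMod 3 × ZMod 3, ∑ x, g x = g 0 + g 1 + g 2 := fun g =>
    Fin.sum_univ_three g
  simp only [e]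
  rw [h0, h1, h2, h3, h4]
  generalize F (1, 0) = a
  generalize F (0, 1) = b
  generalize F (1, 1) = c
  generalize F (1, 2) = d
  revert a b c d
  decide

/-- An odd function is additive if and only if it is additive on two sums. -/
theorem lin_tab {F : ZMod 3 × ZMod 3 → ZMod 3} (hF : ∀ v, F (-v) = -F v) :
    (∀ v w, F (v + w) = F v + F w) ↔ F (1, 1) = F (1, 0) + F (0, 1) ∧
      F (1, 2) = F (1, 0) - F (0, 1) := by
  obtain ⟨h0, h1, h2, h3, h4⟩ := tab hF
  constructor
  · intro h
    refine ⟨h (1, 0) (0, 1), ?_⟩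
    have := h (1, 0) (0, 2)
    rw [h2] at this
    rw [sub_eq_add_neg]
    exact this
  · rintro ⟨h5, h6⟩
    have key : ∀ x y : ZMod 3, F (x, y) = x * F (1, 0) + y * F (0, 1) := by
      have e : ∀ P : ZMod 3 → Prop, P 0 → P 1 → P 2 → ∀ x, P x := by
        intro P p0 p1 p2 x
        fin_cases x
        · exact p0
        · exact p1
        · exact p2
      refine e _ (e _ ?_ ?_ ?_) (e _ ?_ ?_ ?_) (e _ ?_ ?_ ?_)
      · rw [h0]; ring
      · ring
      · rw [h2]
        exact (show ∀ a b : ZMod 3, -b = 0 * a + 2 * b by decide) _ _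
      · ring
      · rw [h5]; ring
      · rw [h6]
        exact (show ∀ a b : ZMod 3, a - b = 1 * a + 2 * b by decide) _ _
      · rw [h1]
        exact (show ∀ a b : ZMod 3, -a = 2 * a + 0 * b by decide) _ _
      · rw [h4, h6]
        exact (show ∀ a b : ZMod 3, -(a - b) = 2 * a + 1 * b by decide) _ _
      · rw [h3, h5]
        exact (show ∀ a b : ZMod 3, -(a + b) = 2 * a + 2 * b by decide) _ _
    rintro ⟨x, y⟩ ⟨x', y'⟩
    change F (x + x', y + y') = _
    rw [key, key x y, key x' y']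
    ring

section

variable {V : Type*} [AddCommGroup V]

/-- The map `f ↦ ∑ f(v) v`. -/
def sumMap (V : Type*) [AddCommGroup V] [Module (ZMod 3) V] [Fintype V] : Odd V →+ V where
  toFun f := ∑ v, f.1 v • v
  map_zero' := by
    refine Finset.sum_eq_zero fun v _ => ?_
    exact zero_smul _ _
  map_add' f g := by
    rw [← Finset.sum_add_distrib]
    exact Finset.sum_congr rfl fun v _ => add_smul _ _ _

theorem exists_coord [Module (ZMod 3) V] (hc : Nat.card V = 9) :
    Nonempty ((ZMod 3 × ZMod 3) ≃+ V) := by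
  have hfin : Finite V := Nat.finite_of_card_ne_zero (by omega)
  have h1 := Module.natCard_eq_pow_finrank (K := ZMod 3) (V := V)
  rw [hc, Nat.card_zmod] at h1
  have h2 : Module.finrank (ZMod 3) V = 2 := by
    have h4 : 3 ^ 2 = 3 ^ Module.finrank (ZMod 3) V := h1
    exact (Nat.pow_right_injective (le_refl 2 |>.trans (by norm_num)) h4).symm
  have h5 : Module.finrank (ZMod 3) (ZMod 3 × ZMod 3) = Module.finrank (ZMod 3) V := by
    rw [h2, Module.finrank_prod, Module.finrank_self]
  have hmf : Module.Finite (ZMod 3) V := Module.Finite.of_finite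
  exact ⟨(LinearEquiv.ofFinrankEq _ _ h5).toAddEquiv⟩

variable [Module (ZMod 3) V] [Fintype V]

theorem sumMap_eq (φ : (ZMod 3 × ZMod 3) ≃+ V) (f : Odd V) :
    sumMap V f = φ (∑ v, f.1 (φ v) • v) := by
  change ∑ v, f.1 v • v = _
  rw [← Equiv.sum_comp φ.toEquiv, map_sum]
  exact Finset.sum_congr rfl fun v _ => (ZMod.map_smul φ _ v).symm

theorem ker_sumMap (φ : (ZMod 3 × ZMod 3) ≃+ V) : (sumMap V).ker = Lin V := by
  ext f
  have hF : ∀ v, (fun v => f.1 (φ v)) (-v) = -(fun v => f.1 (φ v)) v := by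
    intro v
    change f.1 (φ (-v)) = -f.1 (φ v)
    rw [map_neg]
    exact f.2 _
  rw [AddMonoidHom.mem_ker, sumMap_eq φ, map_eq_zero_iff φ φ.injective]
  have h1 := sum_tab (F := fun v => f.1 (φ v)) hF
  have h2 := lin_tab (F := fun v => f.1 (φ v)) hF
  have h3 : f ∈ Lin V ↔ ∀ v w, f.1 (φ (v + w)) = f.1 (φ v) + f.1 (φ w) := by
    constructor
    · intro h v w
      rw [map_add]
      exact h _ _
    · intro h v w
      have := h (φ.symm v) (φ.symm w)
      rw [map_add, φ.apply_symm_apply, φ.apply_symm_apply] at this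
      exact this
  rw [h3]
  refine Iff.trans ?_ h2.symm
  rw [h1, Prod.mk_eq_zero]
  generalize f.1 (φ (1, 0)) = a
  generalize f.1 (φ (0, 1)) = b
  generalize f.1 (φ (1, 1)) = c
  generalize f.1 (φ (1, 2)) = d
  revert a b c d
  decide

theorem sumMap_surjective : Function.Surjective (sumMap V) := by
  classical
  intro v
  by_cases hv : v = 0
  · exact ⟨0, by rw [map_zero, hv]⟩
  have hvv : v ≠ -v := by
    intro h
    have h2 : (2 : ZMod 3) • v = 0 := by
      rw [show (2 : ZMod 3) = 1 + 1 by decide, add_smul, one_smul]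
      nth_rewrite 2 [h]
      exact add_neg_cancel v
    have h3 : (2 : ZMod 3) • ((2 : ZMod 3) • v) = v := by
      rw [smul_smul, show (2 : ZMod 3) * 2 = 1 by decide, one_smul]
    rw [h2, smul_zero] at h3
    exact hv h3.symm
  refine ⟨⟨fun w => if w = v then 2 else if w = -v then 1 else 0, ?_⟩, ?_⟩
  · intro w
    change (if -w = v then (2 : ZMod 3) else if -w = -v then 1 else 0) =
      -(if w = v then (2 : ZMod 3) else if w = -v then 1 else 0)
    by_cases h1 : w = v
    · have h2 : -w ≠ v := fun h => hvv (by rw [h1] at h; exact h.symm)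
      rw [if_neg h2, if_pos (by rw [h1]), if_pos h1]
      decide
    · by_cases h2 : w = -v
      · rw [if_pos (by rw [h2, neg_neg]), if_neg h1, if_pos h2]
        decide
      · rw [if_neg (fun h => h2 (by rw [← h, neg_neg])), if_neg (fun h => h1 (neg_injective h)),
          if_neg h1, if_neg h2, neg_zero]
  · change ∑ w, (if w = v then (2 : ZMod 3) else if w = -v then 1 else 0) • w = v
    have h1 : ∀ w : V, (if w = v then (2 : ZMod 3) else if w = -v then 1 else 0) • w =
        (if w = v then (2 : ZMod 3) • v else 0) + (if w = -v then -v else 0) := by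
      intro w
      by_cases h1 : w = v
      · rw [if_pos h1, if_pos h1, if_neg (by rw [h1]; exact hvv), add_zero, h1]
      · by_cases h2 : w = -v
        · rw [if_neg h1, if_pos h2, if_neg h1, if_pos h2, one_smul, zero_add, h2]
        · rw [if_neg h1, if_neg h2, if_neg h1, if_neg h2, zero_smul, add_zero]
    rw [Finset.sum_congr rfl fun w _ => h1 w, Finset.sum_add_distrib, Finset.sum_ite_eq' ,
      Finset.sum_ite_eq', if_pos (Finset.mem_univ _), if_pos (Finset.mem_univ _),
      show (2 : ZMod 3) = 1 + 1 by decide, add_smul, one_smul]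
    abel

end

/-- E4a. -/
theorem odd_exact {G : Type*} [Group G] {V : Type*} [AddCommGroup V]
    (ρ : G →* AddMonoid.End V) (h3 : ∀ v : V, 3 • v = 0) (hc : Nat.card V = 9) :
    Iso (quoRep (oddRep ρ) (Lin V) (lin_stab ρ)) ρ := by
  have hfin : Finite V := Nat.finite_of_card_ne_zero (by omega)
  let m : Module (ZMod 3) V := AddCommGroup.zmodModule h3
  let ft : Fintype V := Fintype.ofFinite V
  obtain ⟨φ⟩ := exists_coord (V := V) hc
  have hker := ker_sumMap φ
  have hS : ∀ g f, sumMap V (oddRep ρ g f) = ρ g (sumMap V f) := by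
    intro g f
    change ∑ v, f.1 (ρ g⁻¹ v) • v = ρ g (∑ v, f.1 v • v)
    have hinv : ∀ v, ρ g⁻¹ (ρ g v) = v := by
      intro v
      change (ρ g⁻¹ * ρ g) v = v
      rw [← map_mul, inv_mul_cancel, map_one]
      rfl
    have hinv' : ∀ v, ρ g (ρ g⁻¹ v) = v := by
      intro v
      change (ρ g * ρ g⁻¹) v = v
      rw [← map_mul, mul_inv_cancel, map_one]
      rfl
    let e : V ≃ V := ⟨fun v => ρ g v, fun v => ρ g⁻¹ v, hinv, hinv'⟩
    rw [← Equiv.sum_comp e, map_sum]
    refine Finset.sum_congr rfl fun v _ => ?_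
    change f.1 (ρ g⁻¹ (ρ g v)) • ρ g v = ρ g (f.1 v • v)
    rw [hinv]
    exact (ZMod.map_smul (ρ g) _ v).symm
  let e : (Odd V ⧸ Lin V) ≃+ V :=
    (QuotientAddGroup.quotientAddEquivOfEq hker.symm).trans
      (QuotientAddGroup.quotientKerEquivOfSurjective (sumMap V) sumMap_surjective)
  refine ⟨e, fun g x => ?_⟩
  induction x using QuotientAddGroup.induction_on with
  | H f => exact hS g f

/-- E4b. -/
theorem lin_iso {G : Type*} [Group G] {V : Type*} [AddCommGroup V]
    (ρ : G →* AddMonoid.End V) (h3 : ∀ v : V, 3 • v = 0) (hc : Nat.card V = 9)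
    (B : V →+ V →+ ZMod 3) (hB : ∀ v, v ≠ 0 → ∃ w, B v w ≠ 0)
    (hg : ∀ g v w, B (ρ g v) (ρ g w) = B v w) :
    Iso ρ (subRep (oddRep ρ) (Lin V) (lin_stab ρ)) := by
  have hfin : Finite V := Nat.finite_of_card_ne_zero (by omega)
  let m : Module (ZMod 3) V := AddCommGroup.zmodModule h3
  obtain ⟨φ⟩ := exists_coord (V := V) hc
  let E : V →+ Lin V :=
    { toFun := fun v => ⟨⟨fun w => B v w, fun w => map_neg (B v) w⟩, fun w w' => map_add (B v) w w'⟩
      map_zero' := by
        apply Subtype.ext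
        apply Subtype.ext
        funext w
        change B 0 w = 0
        rw [map_zero]
        rfl
      map_add' := fun v v' => by
        apply Subtype.ext
        apply Subtype.ext
        funext w
        change B (v + v') w = B v w + B v' w
        rw [map_add]
        rfl }
  have hE : Function.Injective E := by
    rw [injective_iff_map_eq_zero]
    intro v hv
    by_contra h0
    obtain ⟨w, hw⟩ := hB v h0
    apply hw
    have := congrArg (fun f : Lin V => f.1.1 w) hv
    exact this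
  have hcard : Nat.card (Lin V) ≤ Nat.card V := by
    rw [hc]
    have h1 : Nat.card (ZMod 3 × ZMod 3) = 9 := by
      rw [Nat.card_prod, Nat.card_zmod]
    rw [← h1]
    refine Nat.card_le_card_of_injective
      (fun f : Lin V => (f.1.1 (φ (1, 0)), f.1.1 (φ (0, 1)))) ?_
    intro f f' hff
    have e1 : f.1.1 (φ (1, 0)) = f'.1.1 (φ (1, 0)) := congrArg Prod.fst hff
    have e2 : f.1.1 (φ (0, 1)) = f'.1.1 (φ (0, 1)) := congrArg Prod.snd hff
    apply Subtype.ext
    apply Subtype.ext
    funext v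
    let F : V →+ ZMod 3 := AddMonoidHom.mk' f.1.1 f.2
    let F' : V →+ ZMod 3 := AddMonoidHom.mk' f'.1.1 f'.2
    change F v = F' v
    rw [← φ.apply_symm_apply v]
    obtain ⟨x, y⟩ := φ.symm v
    have e3 : ((x, y) : ZMod 3 × ZMod 3) = x.val • ((1, 0) : ZMod 3 × ZMod 3) +
        y.val • ((0, 1) : ZMod 3 × ZMod 3) := by
      revert x y
      decide
    rw [e3, map_add, map_nsmul, map_nsmul, map_add, map_nsmul, map_nsmul, map_add, map_nsmul,
      map_nsmul]
    change _ • f.1.1 (φ (1, 0)) + _ • f.1.1 (φ (0, 1)) = _ • f'.1.1 (φ (1, 0)) +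
      _ • f'.1.1 (φ (0, 1))
    rw [e1, e2]
  have hfin' : Finite (Lin V) := inferInstance
  have hbij : Function.Bijective E := hE.bijective_of_nat_card_le hcard
  refine ⟨AddEquiv.ofBijective E hbij, fun g v => ?_⟩
  apply Subtype.ext
  apply Subtype.ext
  funext w
  change B (ρ g v) w = B v (ρ g⁻¹ w)
  have hinv' : ρ g (ρ g⁻¹ w) = w := by
    change (ρ g * ρ g⁻¹) w = w
    rw [← map_mul, mul_inv_cancel, map_one]
    rfl
  rw [← hg g v (ρ g⁻¹ w), hinv']

end Pool.Agent.Helper47.P3
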